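import Pool.Agent.H47.KS.Targets

/-!
# Board ksu_modules, row FIN: few elements with a quadratic progression which are not rich
-/

set_option autoImplicit false

namespace Pool.Agent.H20.KSU

open Finset Pool.Agent.H37.SP Pool.Agent.H47.KS

theorem image_Ico (b h l0 : ℤ) (L : ℕ) :
    (Finset.Ico l0 (l0 + L)).image (fun l => b + h * C2 l) =
      prog (b + h * C2 l0) (h * l0) h L := by
  ext z
  unfold prog
  rw [mem_image, mem_image]
  constructor
  · rintro ⟨l, hl, rfl⟩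
    rw [Finset.mem_Ico] at hl
    obtain ⟨t, ht⟩ := Int.eq_ofNat_of_zero_le (show 0 ≤ l - l0 by linarith [hl.1])
    refine ⟨t, mem_range.2 (by omega), ?_⟩
    have e : l = l0 + t := by omega
    rw [e, C2_add]
    ring
  · rintro ⟨t, ht, rfl⟩
    rw [mem_range] at ht
    refine ⟨l0 + t, Finset.mem_Ico.2 ⟨by omega, by omega⟩, ?_⟩
    rw [C2_add]
    ring

/-- few offsets -/
theorem few_offsets (hUNI : T_UNI) (P : Par) (S : Set ℤ) (z : ℤ) (Y : Finset ℤ) (hP : P.Ok)
    (h0 : ℤ) (hh0 : h0 = 1 ∨ h0 = -1) (b l0 : ℤ → ℤ)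
    (hY : ∀ y ∈ Y, z ≤ y ∧ y < z + (P.n * P.k : ℕ) ∧ ¬ R1 P S y)
    (hY' : ∀ y ∈ Y, ∀ l : ℤ, l0 y ≤ l → l < l0 y + 4 * P.nu →
      (P.g0 : ℤ) ≤ 2 * |l| ∧ b y + h0 * C2 l ∈ S ∧ |b y + h0 * C2 l - y| ≤ (P.n * P.k : ℕ)) :
    (Y.image b).card < P.d := by
  classical
  by_contra hcon
  rw [not_lt] at hcon
  obtain ⟨B, hB, hBc⟩ := exists_subset_card_eq hcon
  let e := B.equivFinOfCardEq hBc
  have hex : ∀ i : Fin P.d, ∃ y ∈ Y, b y = (e.symm i).1 := fun i => by
    have := hB (e.symm i).2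
    rw [mem_image] at this
    exact this
  choose y hy hby using hex
  have hinj : Function.Injective (fun i => b (y i)) := by
    intro i j hij
    simp only [hby] at hij
    exact e.symm.injective (Subtype.ext hij)
  have hh2 : h0 * h0 = 1 := by rcases hh0 with h | h <;> rw [h] <;> norm_num
  have hinj' : Function.Injective (fun i => h0 * b (y i)) := by
    intro i j hij
    apply hinj
    have h1 : h0 * (h0 * b (y i)) = h0 * (h0 * b (y j)) := congrArg (fun x => h0 * x) hij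
    rw [← mul_assoc, ← mul_assoc, hh2, one_mul, one_mul] at h1
    exact h1
  have hnu := hP.nu1
  have hg0 : P.g0 = 16 * (8 * P.nu) ^ 3 := rfl
  have hl : ∀ i, ∀ l : ℤ, l0 (y i) ≤ l → l < l0 (y i) + (4 * P.nu : ℕ) →
      16 * ((4 * P.nu : ℕ) : ℤ) ^ 3 < |l| := by
    intro i l h1 h2
    have h3 := (hY' (y i) (hy i) l h1 (by push_cast at h2; exact h2)).1
    rw [hg0] at h3
    push_cast at h3 ⊢
    have h4 : (1 : ℤ) ≤ (P.nu : ℤ) ^ 3 := one_le_pow₀ (by exact_mod_cast hnu)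
    nlinarith
  have huni := hUNI P.d (4 * P.nu) (fun i => h0 * b (y i)) (fun i => l0 (y i)) hinj' hl
  have hd1 := hP.d1
  let i0 : Fin P.d := ⟨0, hd1⟩
  apply (hY (y i0) (hy i0)).2.2
  refine ⟨(univ : Finset (Fin P.d)).biUnion (fun i =>
    (Finset.Ico (l0 (y i)) (l0 (y i) + (4 * P.nu : ℕ))).image (fun l => b (y i) + h0 * C2 l)),
    Or.inr (Or.inr ?_), ?_, ?_⟩
  · refine ⟨fun i => b (y i) + h0 * C2 (l0 (y i)), fun i => h0 * l0 (y i), fun _ => h0, ?_, ?_⟩
    · intro i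
      rcases hh0 with h | h <;> rw [h] <;> norm_num
    · exact biUnion_congr rfl fun i _ => image_Ico _ _ _ _
  · intro w hw
    rw [mem_biUnion] at hw
    obtain ⟨i, -, hw⟩ := hw
    rw [mem_image] at hw
    obtain ⟨l, hl1, rfl⟩ := hw
    rw [Finset.mem_Ico] at hl1
    obtain ⟨-, h3, h4⟩ := hY' (y i) (hy i) l hl1.1 (by have := hl1.2; push_cast at this; exact this)
    refine ⟨h3, ?_⟩
    have h5 := (hY (y i) (hy i))
    have h6 := (hY (y i0) (hy i0))
    have hL1 : (4 * (P.n * P.k : ℕ) : ℤ) ≤ (P.L1 : ℤ) := by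
      have := hP.L1
      rw [mul_assoc] at this
      exact_mod_cast this
    rw [abs_le] at h4 ⊢
    constructor <;> linarith [h5.1, h5.2.1, h6.1, h6.2.1, h4.1, h4.2,
      Int.natCast_nonneg (P.n * P.k)]
  · have hsub : ((univ : Finset (Fin P.d)).biUnion (fun i =>
        (Finset.Ico (l0 (y i)) (l0 (y i) + (4 * P.nu : ℕ))).image
          (fun l => h0 * b (y i) + C2 l))) ⊆
        ((univ : Finset (Fin P.d)).biUnion (fun i =>
        (Finset.Ico (l0 (y i)) (l0 (y i) + (4 * P.nu : ℕ))).image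
          (fun l => b (y i) + h0 * C2 l))).image (fun w => h0 * w) := by
      intro w hw
      rw [mem_biUnion] at hw
      obtain ⟨i, hi, hw⟩ := hw
      rw [mem_image] at hw
      obtain ⟨l, hl1, rfl⟩ := hw
      rw [mem_image]
      refine ⟨b (y i) + h0 * C2 l, mem_biUnion.2 ⟨i, hi, mem_image.2 ⟨l, hl1, rfl⟩⟩, ?_⟩
      rw [mul_add, ← mul_assoc, hh2, one_mul]
    have h1 := (card_le_card hsub).trans card_image_le
    have htd := hP.td
    have h2 : P.d * (4 * P.nu) = 4 * P.nu * P.d := by ring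
    rw [h2] at huni
    omega

theorem pf_FIN (hUNI : T_UNI) (hCNY : T_CNY) : T_FIN := by
  classical
  intro P S z Y hP hY
  have hex : ∀ y ∈ Y, ∃ h b g l0 : ℤ, (h = 1 ∨ h = -1) ∧ (P.g0 : ℤ) ≤ |g| ∧ y = b + h * C2 g ∧
      ∀ l : ℤ, l0 ≤ l → l < l0 + 4 * P.nu →
        (P.g0 : ℤ) ≤ 2 * |l| ∧ b + h * C2 l ∈ S ∧ |b + h * C2 l - y| ≤ (P.n * P.k : ℕ) :=
    fun y hy => (hY y hy).2.2.1
  choose! h b g l0 hh hg hyb hl using hex
  have hnu := hP.nu1
  have hg0 : P.g0 = 16 * (8 * P.nu) ^ 3 := rfl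
  have hg1 : 1 ≤ P.g0 := by
    rw [hg0]
    have : 1 ≤ (8 * P.nu) ^ 3 := Nat.one_le_pow _ _ (by omega)
    omega
  have main : ∀ h0 : ℤ, (h0 = 1 ∨ h0 = -1) →
      (Y.filter (fun y => h y = h0)).card * P.g0 ≤ P.d * (2 * (P.n * P.k) + 2 * P.g0) := by
    intro h0 hh0
    have hsub : ∀ y ∈ Y.filter (fun y => h y = h0), y ∈ Y ∧ h y = h0 := fun y hy =>
      mem_filter.1 hy
    have h1 := few_offsets hUNI P S z (Y.filter (fun y => h y = h0)) hP h0 hh0 b l0
      (fun y hy => ⟨(hY y (hsub y hy).1).1, (hY y (hsub y hy).1).2.1, (hY y (hsub y hy).1).2.2.2⟩)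
      (fun y hy => by
        have := hl y (hsub y hy).1
        rw [(hsub y hy).2] at this
        exact this)
    rw [card_eq_sum_card_image b (Y.filter (fun y => h y = h0)), sum_mul]
    refine le_trans (sum_le_card_nsmul _ _ (2 * (P.n * P.k) + 2 * P.g0) ?_) ?_
    · intro b0 _
      apply hCNY P.g0 (P.n * P.k) b0 h0 z _ hg1 hh0
      intro y hy
      rw [mem_filter] at hy
      obtain ⟨hy1, hy2⟩ := hy
      obtain ⟨hy3, hy4⟩ := hsub y hy1
      refine ⟨(hY y hy3).1, (hY y hy3).2.1, g y, hg y hy3, ?_⟩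
      have := hyb y hy3
      rw [hy2, hy4] at this
      exact this
    · rw [smul_eq_mul]
      exact Nat.mul_le_mul_right _ h1.le
  have m1 := main 1 (Or.inl rfl)
  have m2 := main (-1) (Or.inr rfl)
  have hsum : (Y.filter (fun y => h y = 1)).card + (Y.filter (fun y => ¬ h y = 1)).card =
      Y.card := card_filter_add_card_filter_not _
  have hle : (Y.filter (fun y => ¬ h y = 1)).card ≤ (Y.filter (fun y => h y = -1)).card := by
    apply card_le_card
    intro y hy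
    rw [mem_filter] at hy ⊢
    exact ⟨hy.1, (hh y hy.1).resolve_left hy.2⟩
  have hfin := hP.fin
  have hY1 : Y.card * P.g0 ≤ 2 * (P.d * (2 * (P.n * P.k) + 2 * P.g0)) := by
    calc Y.card * P.g0 ≤ ((Y.filter (fun y => h y = 1)).card +
        (Y.filter (fun y => h y = -1)).card) * P.g0 := Nat.mul_le_mul_right _ (by omega)
      _ ≤ 2 * (P.d * (2 * (P.n * P.k) + 2 * P.g0)) := by rw [add_mul]; omega
  have h3 : 300 * Y.card * P.g0 ≤ P.n * P.k * P.g0 := by
    have h4 : 1200 * P.d * (2 * P.n * P.k + 2 * P.g0) =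
      600 * (2 * (P.d * (2 * (P.n * P.k) + 2 * P.g0))) := by ring
    rw [h4] at hfin
    have h5 : 300 * Y.card * P.g0 = 300 * (Y.card * P.g0) := by ring
    rw [h5]
    omega
  exact Nat.le_of_mul_le_mul_right h3 (by omega)

end Pool.Agent.H20.KSU
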