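import Pool.Agent.H47.KS.Targets

/-!
# Board ksu_modules, row LKB: vertices of `C` and of `I` against `K`
-/

set_option autoImplicit false

namespace Pool.Agent.H20.KSU

open Finset Pool.Agent.H37.SP Pool.Agent.H47.KS

theorem pf_LKB (hLKA : T_LKA) (hLGD : T_LGD) (hLCK : T_LCK) (hHOM : T_HOM) : T_LKB := by
  classical
  intro P N G C K I wK wI hP hB hg hR
  obtain ⟨K1, hK1, hc1, s1, hs1, hx1⟩ := hLKA P N G C K I wK wI hP hB hg hR
  have hnu := hP.nu1
  have hn8 : P.n = 8 * P.nu := rfl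
  have hN1 := hP.N1
  have z1 := Nat.zero_le (P.n * P.E)
  have z2 := Nat.zero_le (P.N2 * P.E)
  have z3 : P.n ≤ P.n * P.E + P.n := Nat.le_add_left _ _
  -- a homogeneous part of `I`
  obtain ⟨h, I3, hI3, hcI3, hI3s⟩ : ∃ h : ℤ, ∃ I3 ⊆ I, I3.card = P.n ∧ ∀ c ∈ I3, s1 c = h := by
    have hsum : (I.filter (fun c => s1 c = 0)).card + (I.filter (fun c => ¬ s1 c = 0)).card =
        I.card := card_filter_add_card_filter_not _
    have hcI := hB.cI
    rcases le_or_gt P.n (I.filter (fun c => s1 c = 0)).card with h0 | h0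
    · obtain ⟨I3, h1, h2⟩ := exists_subset_card_eq h0
      exact ⟨0, I3, h1.trans (filter_subset _ _), h2, fun c hc => (mem_filter.1 (h1 hc)).2⟩
    · have h3 : P.n ≤ (I.filter (fun c => ¬ s1 c = 0)).card := by
        have h4 : 2 * P.n ≤ P.N1 := by nlinarith
        omega
      obtain ⟨I3, h1, h2⟩ := exists_subset_card_eq h3
      refine ⟨1, I3, h1.trans (filter_subset _ _), h2, fun c hc => ?_⟩
      rcases hs1 c with h5 | h5
      · exact absurd h5 (mem_filter.1 (h1 hc)).2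
      · exact h5
  -- the exceptions of `I3`
  obtain ⟨K2, hK2, hcK2, hK2e⟩ : ∃ K2 ⊆ K1, K1.card ≤ K2.card + P.n * (2 * P.E) ∧
      ∀ a ∈ K2, ∀ c ∈ I3, aa G a c = h := by
    refine ⟨K1.filter (fun a => ∀ c ∈ I3, aa G a c = h), filter_subset _ _, ?_,
      fun a ha => (mem_filter.1 ha).2⟩
    have h1 : (K1.filter (fun a => ∀ c ∈ I3, aa G a c = h)).card +
        (K1.filter (fun a => ¬ ∀ c ∈ I3, aa G a c = h)).card = K1.card :=
      card_filter_add_card_filter_not _
    have h2 : K1.filter (fun a => ¬ ∀ c ∈ I3, aa G a c = h) ⊆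
        I3.biUnion (fun c => K1.filter (fun a => aa G a c ≠ s1 c)) := by
      intro a ha
      rw [mem_filter] at ha
      obtain ⟨ha1, ha2⟩ := ha
      push Not at ha2
      obtain ⟨c, hc, hc'⟩ := ha2
      rw [mem_biUnion]
      exact ⟨c, hc, mem_filter.2 ⟨ha1, by rw [hI3s c hc]; exact hc'⟩⟩
    have h3 := card_biUnion_le_card_mul I3 (fun c => K1.filter (fun a => aa G a c ≠ s1 c))
      (2 * P.E) (fun c hc => hx1 c (hI3 hc))
    rw [hcI3] at h3
    have h4 := card_le_card h2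
    omega
  -- the condition of HOM
  have hcond : ∀ F ⊆ C, F.card = P.n →
      ∃ z : ℤ, (K2.filter (fun a => dg G F a ≠ z)).card ≤ P.E := by
    intro X hX hXn
    obtain ⟨i, j, hij, hi1, hj1, hgi, -⟩ := hLGD P N G C K I X wK wI hP hB hg hR hX hXn
    have hiI : i ≤ I3.card := by omega
    obtain ⟨F, hF, hFi⟩ := exists_subset_card_eq hiI
    obtain ⟨z, hz⟩ := hLCK P N G C K I X wK wI i hP hB hX hXn hi1 (by omega) hgi F
      (hF.trans hI3) hFi
    refine ⟨h * i - z, le_trans (card_le_card ?_) hz⟩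
    intro a ha
    rw [mem_filter] at ha ⊢
    refine ⟨hK1 (hK2 ha.1), ?_⟩
    have h1 : dg G F a = h * i := by
      unfold dg
      rw [sum_congr rfl (fun x hx => hK2e a ha.1 x (hF hx)), sum_const, hFi]
      simp [mul_comm]
    intro h2
    apply ha.2
    rw [h1] at h2
    linarith
  have hkN := hP.kN
  have hu : P.u = (3 * P.n + 2) * P.E := rfl
  have hN2 : 2 * P.N2 * P.E = 2 * (P.N2 * P.E) := by ring
  have hnE : 4 * P.n * P.E = 4 * (P.n * P.E) := by ring
  have hnE2 : P.n * (2 * P.E) = 2 * (P.n * P.E) := by ring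
  have hnE3 : 2 * P.n * P.E = 2 * (P.n * P.E) := by ring
  rw [hN2, hnE] at hN1
  rw [hnE2] at hcK2
  obtain ⟨K', hK', hcK', s2, hs2, hx2⟩ := hHOM N G K2 C P.n P.E P.u (by omega)
    (by rw [hB.cC]; omega) (by rw [hu]; exact Nat.mul_le_mul_right _ (by omega)) (by omega) hcond
  obtain ⟨s, hsC, hsN⟩ : ∃ s : Fin N → ℤ, (∀ x ∈ C, s x = s2 x) ∧ ∀ x, x ∉ C → s x = s1 x :=
    ⟨fun x => if x ∈ C then s2 x else s1 x, fun x hx => if_pos hx, fun x hx => if_neg hx⟩
  refine ⟨K', hK'.trans (hK2.trans hK1), by rw [hnE3]; omega, s, ?_, ?_⟩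
  · intro x
    by_cases hx : x ∈ C
    · rw [hsC x hx]; exact hs2 x
    · rw [hsN x hx]; exact hs1 x
  · intro z hz
    by_cases hzC : z ∈ C
    · rw [hsC z hzC]
      exact hx2 z hzC
    · rw [hsN z hzC]
      have hzI : z ∈ I := (mem_union.1 hz).resolve_left hzC
      refine le_trans (card_le_card ?_) (hx1 z hzI)
      exact filter_subset_filter _ (hK'.trans hK2)

end Pool.Agent.H20.KSU
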